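import Pool.Agent.Q57.MD.Rows

/-!
# The motivic monodromy conjecture for the hypersurfaces of tuples built from cones

We prove Q1 over `k = ℂ`, in its strong form, for the hypersurfaces `∑ y_j f_j(x) = 0`, the `f_j` being a
tuple of a class which is closed under several operations.

A *tuple* is a family `f = (f_1, …, f_r)` of polynomials in `x_1, …, x_n`. A *chart* for `f` consists of
polynomials `a_1, …, a_c, w` and of a tuple `h` in `c` variables such that the `f_j` and the
`h_k(a_1/w, …, a_c/w)` generate the same ideal of `ℂ[x]_w`; the point `p` is in the chart if `w(p) ≠ 0`,
`a_t(p) = 0` for all `t`, and a given `c × c` minor of the Jacobian matrix of the `a_t` does not vanish at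
`p`. So at `p` the `g_t = a_t/w` are a part of a system of local coordinates, and the scheme `{f = 0}` is
there the product of the germ of `{h = 0}` at the origin with a smooth factor.

The class `Tower false` of germs at the origin and its subclass `Tower true` are the smallest classes with:

* *sparse* tuples: the tuples `f_i = ∑_(π j = i) c_j x ^ (m_j)`, `c_j ≠ 0`, the vectors `(m_j, e_(π j))`
  being linearly independent, are in `Tower false` (for instance the generators of all monomial ideals,
  with any coefficients, and the polynomials with affinely independent exponents);
* (both classes) *relative cones*: let the `f_j` be forms of the same degree `d > 0` in the variables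
  `x_i`, `i ∈ T`, with polynomials in the other variables as coefficients, such that `|T|` of them are
  algebraically independent over the other variables, or that `d ≥ 2` and the relations between the
  derivatives `∂_i F`, `i ∈ T`, of a combination `F ≠ 0` of the `f_j` are the trivial ones (if `T` is
  the set of all variables, this means that `F` has an isolated singularity), or that `-|T|/d` is known
  to be a root of the local `b`-functions. If every common zero `p ≠ 0` with `p_i = 0` for all `i ∉ T`
  is in one of finitely many charts with tuples `h` of the class, `f` is in the class;
* (both classes) *products* `f_i(x) g_j(y)` of two tuples of the class;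
* (both classes) *hypersurfaces*: with `f` the class contains the polynomial `∑ y_j f_j(x)`;
* (only for `Tower true`) *sums*: with `f` and `g` the class contains the tuple `f_i(x), g_j(y)` in
  disjoint sets of variables, which generates the sum of the ideals;
* (both classes) *formal coordinates*: the class contains every tuple `f` which generates in `ℂ[[x]]` the
  same ideal as `h_k(g_1, …, g_c)`, where `h` is a tuple of the class and `g_1, …, g_c` is a part of a
  system of formal coordinates.

The classes `Glob B` consist of the tuples whose zero set is covered by finitely many charts with tuples of
the class `Tower B`, of the relative cones whose zeros with `p_i ≠ 0` for some `i ∈ T` are covered in this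
way, of their products, hypersurfaces `∑ y_j f_j` and (for `B = true`) sums, again and again.

Examples. (1) The tuples `(x_1), (x_1 ^ k)`, all smooth germs, the forms with isolated singularities, and
the forms of a large degree in the ideal of a smooth projective scheme (see below) are in `Tower true`. So
are the ideals `(f_1(x), f_2(y), …)`, the products and the hypersurfaces `∑ y_j f_j(x)` made of them, again
and again, and the families of cones over them.

(2) Let `Z` be a closed subscheme of `ℙ ^ (n-1)` whose cone is covered by charts of the class (`Z` is smooth,
or locally the product of a smooth factor and a germ of the class, as the determinantal schemes, or schemes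
with singularities which are cones over such schemes). If the ideal of `Z` is generated in the degrees
`≤ d₀` and `d > d₀`, the forms of degree `d` in the ideal are a cone of the class: with one form `g` of
degree `d - 1` there are the forms `x_1 g, …, x_n g`, which are algebraically independent.

Method. The arcs with origin in the set of the points of one chart are the product of the jets of `h` at
the origin and of free jets, for all orders at the same time; this gives the motivic zeta function of a
relative cone, by the multiplicities in the direction of `T` of an arc whose origin has `p_i = 0` for
`i ∈ T`, and the new pair is `(-|T|, d)`. The root `-|T|/d` of the Bernstein-Sato polynomial comes from a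
Rees valuation of the ideal if `|T|` of the forms are independent; and if the relations between the
derivatives of `F` are trivial, `F ^ (-|T|/d)` is not a sum of derivatives of elements
`g F ^ (-|T|/d - k)`, but this is what a functional equation whose polynomial does not vanish at `-|T|/d`
would give. For sums one uses the volumes of the sets `{ord ≥ k}`, whose generating series are closed
under the Hadamard product. If `α` is a root of all local `b`-functions of `h`, it is a root of the local
`b`-functions of `f` at all points of the chart: a functional equation for `f` with power series
coefficients is restricted to a transversal slice, and other generators of the same ideal have the same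
`b`-functions.

The sets `𝒳_{d,1}` for `∑ y_j f_j` are computed from the jets of the `f_j`, as the equation is linear
in the `y_j`.
-/

set_option autoImplicit false

namespace Pool.Agent.Results.MP_432c1b_ag.ConeTowersMotivic

open MvPolynomial Pool.Agent.Q57.MD
open Pool.Agent.Q57.MC (hypF)
open Pool.Agent.W428.MOT (ratRing)
open Pool.Agent.W375.MG (zetaW)
open Pool.Agent.H628R4.TP (IsBFunction)

/-- **Q1, in its strong form, for the hypersurfaces `F = ∑ y_j f_j(x)` of the tuples of the class
`Glob false`.** There is a finite set `S` of pairs `(a, b)` with `a < 0 < b` such that the motivic zeta function
`∑_{d ≥ 0} [𝒳_{d,1}] 𝕃 ^ (-m d) T ^ d` of `F` (`zetaW F univ`) is in the ring generated by `T` and the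
`1 / (1 - 𝕃 ^ a T ^ b)`, `(a, b) ∈ S`, and `a / b` is a root of every `b'` with
`b'(s) F ^ s = P(s) F ^ (s + 1)`, `P(s)` in the Weyl algebra, polynomial in `s` (for instance
`b' = b_F`); so `exp(2πi a / b)` is a monodromy eigenvalue of `F` at a point of `{F = 0}`, by the theorem
of Malgrange and Kashiwara. -/
theorem result {n r : ℕ} (f : Fin r → MvPolynomial (Fin n) ℂ) (hf : Glob false n r f) :
    ∃ S : Finset (ℤ × ℤ), (∀ q ∈ S, q.1 < 0 ∧ 0 < q.2 ∧
      ∀ b : Polynomial ℂ, IsBFunction (hypF f) b → b.eval ((q.1 : ℂ) / q.2) = 0) ∧
      zetaW (hypF f) Set.univ ∈ ratRing ℂ (S : Set (ℤ × ℤ)) := by
  obtain ⟨S, h1, h2, -⟩ := hyp_mot hf
  exact ⟨S, h1, h2⟩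

end Pool.Agent.Results.MP_432c1b_ag.ConeTowersMotivic
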