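import Pool.Agent.Q57.QM.All

/-!
# The strong monodromy conjecture, motivic version, for hypersurfaces built from plane ideals and
systems of quadrics

We prove Q1 for a class of hypersurfaces `∑ y_j f_j = 0` which is closed under several operations.

A *tuple* is a family `f = (f_1, …, f_r)` of polynomials in `x_1, …, x_n`. A *chart* for `f` consists of
polynomials `a_1, …, a_c, w` and of a tuple `h` in `c` variables such that the `f_j` and the
`h_k(a_1/w, …, a_c/w)` generate the same ideal of `ℂ[x]_w`; the point `p` is in the chart if `w(p) ≠ 0`,
`a_t(p) = 0` for all `t`, and a given `c × c` minor of the Jacobian matrix of the `a_t` does not vanish at
`p`. So at `p` the `a_t/w` are a part of a system of local coordinates, and the scheme `{f = 0}` is there the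
product of the germ of `{h = 0}` at the origin with a smooth factor.

The class. `QC k b n r f`, `k = cov, glob, germ`, `b = true, false`, are the smallest classes with:
* `QC cov true` contains **all ideals of `ℂ[x, y]`**, **all ideals which are generated by polynomials of
  degree at most two in three variables** (arbitrary systems of quadrics), all ideals of subschemes of smooth
  surfaces of degree two (`QuadSys`: every common zero is a smooth point of a surface `f_j = 0` with
  `deg f_j ≤ 2`, the other `f_j` are arbitrary), and **all ideals which are generated by quadratic forms in
  four variables** (all these ideals are nonzero);
* *cones*: let the `f_j` be forms of degree `d > 0` in `n + 1` variables whose charts `x_i = 1` are in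
  `QC cov b`, such that `n + 1` of the `f_j` are algebraically independent, or that `d ≥ 2` and the
  relations between the derivatives of a combination `F ≠ 0` of the `f_j` are the trivial ones (so `F` has an
  isolated singularity), or that `-(n + 1)/d` is known to be a root of the local `b`-functions at the
  origin; then `f` is in `QC cov b`;
* *products* `f_i(x) g_j(y)`, and, for `b = true`, *sums* `(f_i(x), g_j(y))`, in disjoint sets of
  variables (all `k`);
* *charts*: `QC cov b` contains the tuples all of whose zeros are in finitely many charts with tuples `h`
  whose germs at the origin are in `QC germ b`;
* `QC cov b` is contained in `QC glob b` and in `QC germ b`, and `true` implies `false`;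
* *hypersurfaces*: with `f` the classes `QC glob b`, `QC germ b` contain the polynomial `∑ y_j f_j(x)`;
* *formal coordinates*: `QC germ b` contains every tuple `f` which generates in `ℂ[[x]]` the same ideal as
  `h_k(g_1, …, g_c)`, where `h` is in `QC germ b` and `g_1, …, g_c` is a part of a system of formal coordinates.

Examples. (1) `F = ∑ y_j q_j(x)` for arbitrary polynomials `q_j` of degree at most two in three variables, or
arbitrary quadratic forms in four variables. (The starting theorems `TrilinearReduction` reduce the conjecture
for all polynomials to the polynomials `∑ y_j q_j(x)`, `q_j` quadratic forms in `n` variables, for all `n`.)
(2) Forms of the same degree in three variables (cones over ideals of the plane) of which three are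
algebraically independent, for example all forms of degree `d > d₀` in an ideal generated in degrees `≤ d₀`;
the same for forms in four variables whose charts are systems of quadrics, or ideals of subschemes of smooth
quadric surfaces, or sums of ideals in disjoint variables; cones over such cones.
(3) Sums, products (in disjoint sets of variables) and the polynomials `∑ y_j f_j` of all these, again and
again; for germs at the origin also everything which has this form in formal coordinates.

Method. `PM f` is the statement for the germ of `f` at the origin: the motivic volumes of the sets of the arcs
on which the ideal has the order `≥ N` have a rational generating series whose denominator only has factors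
which belong to roots of all local functional equations.
* It holds for all ideals of the plane: this is proved by a tree of point blow-ups in the motivic measure
  (`vo`, the volumes of the sets of arcs given by constructible conditions on finitely many coefficients); the
  exceptional curves which are not Rees divisors and which meet only two other curves cancel.
* It is compatible with changes of coordinates, products, sums (Hadamard product of the volumes; roots:
  Thom-Sebastiani for ideals), with `∑ y_j f_j`, and with cones (root `-(n+1)/d` from a Rees valuation or from
  twisted de Rham cohomology).
* At a point of a smooth surface `q = 0` of degree two there are coordinates `q, u, v`, where `u`, `v` come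
  from the projection from a point of the surface or of the plane at infinity. They are rational functions
  whose inverse is rational on `q = 0`; so the ideal is locally `(q, h_j(u, v))`, a sum of ideals in disjoint
  variables. The inverse is only used to find the equations `h_j` of the charts.
* At a point at which all `f_j` are singular they are quadratic forms in three variables. Linear systems of
  singular conics have a common vertex, or are of the form `x L`. In the other cases some combination is a
  nonsingular form, and its derivatives have only the trivial relations, which gives the root `-3/2`.
* Quadratic forms in four variables: linear systems of singular forms without a common vertex are contained in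
  `x L + K w²`; then either they are the products of a linear form with three others, or the ideal is
  `(x, w²)` near some point, which gives the root `-2 = -4/2` of the exceptional divisor of the vertex.
-/

set_option autoImplicit false

namespace Pool.Agent.Results.MP_432c1b_ag.QuadricSystems

open MvPolynomial Pool.Agent.Q57.QM
open Pool.Agent.Q57.MC (hypF)
open Pool.Agent.W428.MOT (ratRing)
open Pool.Agent.W375.MG (zetaW)
open Pool.Agent.H628R4.TP (IsBFunction)

/-- **Q1, in its strong form, for the hypersurfaces `F = ∑ y_j f_j(x)` of the tuples of the class
`QC glob false`.** There is a finite set `S` of pairs `(a, b)` with `a < 0 < b` such that the motivic zeta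
function `∑_{d ≥ 0} [𝒳_{d,1}] 𝕃 ^ (-m d) T ^ d` of `F` (`zetaW F univ`) is in the ring generated by `T` and
the `1 / (1 - 𝕃 ^ a T ^ b)`, `(a, b) ∈ S`, and `a / b` is a root of every `b'` with
`b'(s) F ^ s = P(s) F ^ (s + 1)`, `P(s)` in the Weyl algebra, polynomial in `s` (for instance
`b' = b_F`); so `exp(2πi a / b)` is a monodromy eigenvalue of `F` at a point of `{F = 0}`, by the theorem
of Malgrange and Kashiwara. -/
theorem result {n r : ℕ} (f : Fin r → MvPolynomial (Fin n) ℂ) (hf : QC .glob false n r f) :
    ∃ S : Finset (ℤ × ℤ), (∀ q ∈ S, q.1 < 0 ∧ 0 < q.2 ∧
      ∀ b : Polynomial ℂ, IsBFunction (hypF f) b → b.eval ((q.1 : ℂ) / q.2) = 0) ∧
      zetaW (hypF f) Set.univ ∈ ratRing ℂ (S : Set (ℤ × ℤ)) := by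
  obtain ⟨S, h1, h2, -⟩ := hyp_mot (qc_glob steps hf)
  exact ⟨S, h1, h2⟩

end Pool.Agent.Results.MP_432c1b_ag.QuadricSystems
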