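import Pool.Agent.Q223.TW.MotW

/-!
# The motivic monodromy conjecture for hypersurfaces: reduction to trilinear polynomials

A *program* over a field `k ⊂ ℂ` consists of a forest on the nodes `0, …, κ - 1` (`o m` is the parent of
the node `m`, and comes before `m`; `o m = none` for the roots), of a label `v m ∈ {1, …, n}` for every
node, of a coefficient `c m` for every node and of a constant `a`. Its polynomial is

`F = a + ∑_m c_m z_m + ∑_m y_m (z_m - z_(o m) x_(v m))`  (with `z_none = 1`),

which is linear in each of the three groups of variables `x`, `y`, `z`, and has at most four monomials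
per node. We consider Q1 in the form where the pairs `(a, b)` of the set `S` are in `ℤ × ℤ_{>0}` (in Q1
they have `a < 0`). This form of Q1 for all nonconstant `f ∈ k[x_1, …, x_n]` is equivalent to its case of
the polynomials of programs over `k` whose minimal exponent is larger than any given `N`. If the
coefficients of `f` are in the additive group `A` generated by a set (which contains `1`), the
coefficients `c_m` can be taken from this set, its negative and `0`, and `a ∈ A`.

Method. Horner's scheme of `f` along a forest gives an automorphism of the polynomial ring over `k` which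
takes `f(x) + ∑ y_m z_m` to `F`, and there are such schemes for every large number `κ` of nodes. The
addition of a plane `y z` shifts the roots of `b_f(s) / (s + 1)` by `-1`. With `T ↦ 𝕃^j T` and the factor
`1 - 𝕃⁻¹ T`, the motivic zeta functions of `f` with `j` planes satisfy a linear recursion with constant
coefficients and the characteristic roots `𝕃`, `𝕃 ^ 2`, which has no denominators; so the zeta function
of `f` is obtained from those of the programs with `κ` and `κ + 1` nodes.
-/

set_option autoImplicit false

namespace Pool.Agent.Results.MP_432c1b_ag.TrilinearReductionMotivic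

open MvPolynomial Pool.Agent.Q223.MM Pool.Agent.Q223.TW

/-- **The motivic monodromy conjecture over `k` (with pairs in `ℤ × ℤ_{>0}`) is equivalent to its case
of the trilinear polynomials of programs with minimal exponent larger than `N`.**

`WeakM f`: for every `b ≠ 0` with `b(s) f ^ s = P(s) f ^ (s + 1)` over `ℂ` (for instance `b = b_f`) there is a
finite set `S` of pairs `(a, d) ∈ ℤ × ℤ_{>0}` such that the motivic zeta function
`zetaW f Set.univ = ∑_{d ≥ 0} [𝒳_{d,1}] 𝕃 ^ (-n d) T ^ d` is in `𝓜_k[T, 1 / (1 - 𝕃 ^ a T ^ d)]_{(a, d) ∈ S}`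
and such that for every `(a, d) ∈ S` there is `j ∈ ℤ` with `b(a / d + j) = 0`. For `b = b_f` the last
condition says, by the theorem of Malgrange and Kashiwara, that `exp(2 π i a / d)` is a monodromy
eigenvalue of `f` at some point of `f = 0`.
`MinExp N F`: there is `c ≠ 0` such that `(s + 1) c(s)` satisfies such a functional equation for `F`, and
the roots of `c` have real part `< -N`; so the minimal exponent of `F` is larger than `N`.

`Forest o`: `o m = some m'` implies `m' < m`. `progA o v c a` is the polynomial
`a + ∑ c_m z_m + ∑ y_m (z_m - z_(o m) x_(v m))`, `z_none = 1`. `t ∈ coeffs S`: `t = 0` or `t ∈ S` or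
`-t ∈ S`.

First part: for every `f`, `N` and every large `κ` there are programs with `κ` and with `κ + 1` nodes,
whose polynomials have minimal exponent larger than `N`, such that the conjecture for these two
polynomials implies the conjecture for `f`.
Second part: the equivalence. -/
theorem result (k : Type) [Field k] [Algebra k ℂ] (S : Set k)
    (hS : (1 : k) ∈ AddSubgroup.closure S) (N : ℕ) :
    (∀ (n : ℕ) (f : MvPolynomial (Fin n) k), f.totalDegree ≠ 0 →
      (∀ d, coeff d f ∈ AddSubgroup.closure S) →
      ∃ κ₁ : ℕ, ∀ κ, κ₁ ≤ κ → ∃ (o : ∀ κ, Fin κ → Option (Fin κ)) (v : ∀ κ, Fin κ → Fin n)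
        (c : ∀ κ, Fin κ → k) (a : k), a ∈ AddSubgroup.closure S ∧
        (∀ κ' ∈ ({κ, κ + 1} : Set ℕ), Forest (o κ') ∧ (∀ m, c κ' m ∈ coeffs S) ∧
          MinExp N (map (algebraMap k ℂ) (progA (o κ') (v κ') (c κ') a))) ∧
        (WeakM (progA (o κ) (v κ) (c κ) a) →
          WeakM (progA (o (κ + 1)) (v (κ + 1)) (c (κ + 1)) a) → WeakM f)) ∧
    ((∀ (n : ℕ) (f : MvPolynomial (Fin n) k), f.totalDegree ≠ 0 →
        (∀ d, coeff d f ∈ AddSubgroup.closure S) → WeakM f) ↔
      ∀ (n κ : ℕ) (o : Fin κ → Option (Fin κ)) (v : Fin κ → Fin n) (c : Fin κ → k) (a : k),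
        0 < κ → Forest o → (∀ m, c m ∈ coeffs S) → a ∈ AddSubgroup.closure S →
        MinExp N (map (algebraMap k ℂ) (progA o v c a)) → WeakM (progA o v c a)) := by
  refine ⟨fun n f hf hfS => reduceM S hS N n f hf hfS, ?_, ?_⟩
  · intro h n κ o v c a hκ _ hc ha _
    exact h _ (progA o v c a) (progA_deg o v c a hκ) fun d => progA_coeff hS o v c hc ha d
  · intro h n f hf hfS
    obtain ⟨κ₁, h2⟩ := reduceM S hS N n f hf hfS
    obtain ⟨o, v, c, a, ha, hP, h3⟩ := h2 (κ₁ + 1) (Nat.le_succ κ₁)
    obtain ⟨h4, h5, h6⟩ := hP (κ₁ + 1) (Or.inl rfl)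
    obtain ⟨h7, h8, h9⟩ := hP (κ₁ + 1 + 1) (Or.inr rfl)
    exact h3 (h n _ _ _ _ a (Nat.succ_pos κ₁) h4 h5 ha h6)
      (h n _ _ _ _ a (Nat.succ_pos (κ₁ + 1)) h7 h8 ha h9)

end Pool.Agent.Results.MP_432c1b_ag.TrilinearReductionMotivic
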