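import Pool.Agent.Q42.CU.Mot

/-!
# The motivic monodromy conjecture for hypersurfaces: reduction to sums of cubes over triple systems

A *triple system* over a field `k ⊂ ℂ` consists of subsets `E_1, …, E_r` of `{1, …, m}` with three
elements or with one element and of constants `c_1, …, c_r` in `k`, where `c_j = 0` if `E_j` has three
elements. Its polynomial is

`Φ = (z_1 ^ 3 + ⋯ + z_m ^ 3) / 24 + ∑_j y_j (∑_{i ∈ E_j} z_i - c_j)`.

Every polynomial `f ∈ k[x_1, …, x_n]` is stably equivalent over `k` to such a `Φ`: for all large `κ` there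
is an isomorphism of polynomial rings over `k` which takes `f + u_1 v_1 + ⋯ + u_κ v_κ` to the polynomial of
a triple system. If the coefficients of `f` are in the `ℚ`-vector space spanned by a set `S ∋ 1`, the
`c_j ≠ 0` can be taken to be different elements of `S`; so for `k = ℚ` there is one constant `1` and all
others are `0`, that is, `Φ` is given by a 3-uniform hypergraph with some marked vertices. We deduce
that Q1, in the form where the pairs `(a, b)` of the set `S` are in `ℤ × ℤ_{>0}` (in Q1 they have `a < 0`),
for all nonconstant `f` over `k` is equivalent to its case of the polynomials `Φ` of triple systems over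
`k` (for `k = ℚ`, with one constant `1`), and that only the `Φ` with minimal exponent larger than any
given `N` have to be considered. This is the analogue of Drużkowski's theorem on the Jacobian
conjecture.

Method. Horner's scheme of `f` along a forest (our hand-in TrilinearReductionMotivic) makes `f`
trilinear. The products of three variables or constants are sums of cubes of linear forms
`± a ± b ± c`; every linear form which occurs is computed step by step, each step being an equation
`z + z' + z'' = 0`, and the cubes of the auxiliary forms are cancelled by the cubes of their negatives.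
The equations have an invertible (unitriangular) matrix, and so an automorphism takes `f + ∑ u_m v_m` to
`Φ`; the variables `y_j` are the Lagrange multipliers of the equations. Constants are moved by
`(u + 1) (v - a) = u v - a u + v - a`, and denominators are removed by `x_i ↦ D x_i`. The relation between
the motivic zeta functions of `f` and `f + u v` is the one of TrilinearReductionMotivic; it is used for two
consecutive numbers of planes.
-/

set_option autoImplicit false

namespace Pool.Agent.Results.MP_432c1b_ag.TripleSystems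

open MvPolynomial Pool.Agent.Q223.MM Pool.Agent.Q223.TW Pool.Agent.Q42.CU
open Pool.Agent.H628R4.TP (IsBFunction)

/-- **The motivic monodromy conjecture over `k` (with pairs in `ℤ × ℤ_{>0}`) is equivalent to its case
of the polynomials of triple systems with minimal exponent larger than `N`.**

`Phi 24⁻¹ E c` is the polynomial `(∑ z_i ^ 3) / 24 + ∑_j y_j (∑_{i ∈ E j} z_i - c j)`. `IsTriple S E c`: every
`E j` has three elements and `c j = 0`, or one element and `c j = 0` or `c j ∈ S`; and the `c j` which are
not zero are different. `StEq f κ F`: `F` has `n + 2 κ` variables and an isomorphism of polynomial rings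
takes `f + ∑_{m < κ} u_m v_m` to `F`.

`WeakM f`: for every `b ≠ 0` with `b(s) f ^ s = P(s) f ^ (s + 1)` over `ℂ` (for instance `b = b_f`) there is a
finite set `S` of pairs `(a, d) ∈ ℤ × ℤ_{>0}` such that the motivic zeta function
`zetaW f Set.univ = ∑_{d ≥ 0} [𝒳_{d,1}] 𝕃 ^ (-n d) T ^ d` is in `𝓜_k[T, 1 / (1 - 𝕃 ^ a T ^ d)]_{(a, d) ∈ S}`
and such that for every `(a, d) ∈ S` there is `j ∈ ℤ` with `b(a / d + j) = 0`. For `b = b_f` the last
condition says, by the theorem of Malgrange and Kashiwara, that `exp(2 π i a / d)` is a monodromy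
eigenvalue of `f` at some point of `f = 0`.
`MinExp N F`: there is `c ≠ 0` such that `(s + 1) c(s)` satisfies such a functional equation for `F`, and
the roots of `c` have real part `< -N`; so the minimal exponent of `F` is larger than `N`.

First part: every nonconstant `f ∈ k[x]` with coefficients in the `ℚ`-span of `S ∋ 1` is stably
equivalent over `k` to the polynomials of triple systems, for all large numbers `κ` of planes; they
have minimal exponent larger than `N` (as `f` has a Bernstein-Sato polynomial), and the conjecture for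
two of them (`κ`, `κ + 1`) implies the conjecture for `f`.
Second part: the equivalence. For `S = Set.univ` it is about all nonconstant `f ∈ k[x]`, for
`S = {1}` about all nonconstant polynomials with rational coefficients. -/
theorem result (k : Type) [Field k] [CharZero k] [Algebra k ℂ] (S : Set k) (hS : (1 : k) ∈ S)
    (N : ℕ) :
    (∀ (n : ℕ) (f : MvPolynomial (Fin n) k), f.totalDegree ≠ 0 →
      (∀ d, coeff d f ∈ Submodule.span ℚ S) →
      ∃ κ₁ : ℕ, ∀ κ, κ₁ ≤ κ → ∃ (m r : ℕ → ℕ) (E : ∀ j, Fin (r j) → Finset (Fin (m j)))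
        (c : ∀ j, Fin (r j) → k),
        (∀ j, 0 < m j ∧ IsTriple S (E j) (c j) ∧ StEq f (κ + j) (Phi 24⁻¹ (E j) (c j)) ∧
          ((∃ b : Polynomial ℂ, b ≠ 0 ∧ IsBFunction (map (algebraMap k ℂ) f) b) →
            MinExp N (map (algebraMap k ℂ) (Phi 24⁻¹ (E j) (c j))))) ∧
        (WeakM (Phi 24⁻¹ (E 0) (c 0)) → WeakM (Phi 24⁻¹ (E 1) (c 1)) → WeakM f)) ∧
    ((∀ (n : ℕ) (f : MvPolynomial (Fin n) k), f.totalDegree ≠ 0 →
        (∀ d, coeff d f ∈ Submodule.span ℚ S) → WeakM f) ↔
      ∀ (m r : ℕ) (E : Fin r → Finset (Fin m)) (c : Fin r → k), 0 < m → IsTriple S E c →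
        MinExp N (map (algebraMap k ℂ) (Phi 24⁻¹ E c)) → WeakM (Phi 24⁻¹ E c)) := by
  have key : ∀ (n : ℕ) (f : MvPolynomial (Fin n) k), f.totalDegree ≠ 0 →
      (∀ d, coeff d f ∈ Submodule.span ℚ S) →
      ∃ κ₁ : ℕ, ∀ κ, κ₁ ≤ κ → ∃ (m r : ℕ → ℕ) (E : ∀ j, Fin (r j) → Finset (Fin (m j)))
        (c : ∀ j, Fin (r j) → k),
        (∀ j, 0 < m j ∧ IsTriple S (E j) (c j) ∧ StEq f (κ + j) (Phi 24⁻¹ (E j) (c j)) ∧
          ((∃ b : Polynomial ℂ, b ≠ 0 ∧ IsBFunction (map (algebraMap k ℂ) f) b) →
            MinExp N (map (algebraMap k ℂ) (Phi 24⁻¹ (E j) (c j))))) ∧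
        (WeakM (Phi 24⁻¹ (E 0) (c 0)) → WeakM (Phi 24⁻¹ (E 1) (c 1)) → WeakM f) := by
    intro n f hf hfS
    obtain ⟨κ₁, h⟩ := exists_phisK S hS N n f hf hfS
    refine ⟨κ₁, fun κ hκ => ?_⟩
    choose m r E c h1 using fun j : ℕ => h (κ + j) (hκ.trans (Nat.le_add_right κ j))
    exact ⟨m, r, E, c, h1, StEq.two hf (h1 0).2.2.1 (h1 1).2.2.1⟩
  refine ⟨key, ?_, ?_⟩
  · intro h m r E c hm hc _
    exact h _ _ (Phi_deg inv24k hm E c) (Phi_span inv24k hS hc)
  · intro h n f hf hfS
    by_cases hb : ∃ b : Polynomial ℂ, b ≠ 0 ∧ IsBFunction (map (algebraMap k ℂ) f) b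
    · obtain ⟨κ₁, h3⟩ := key n f hf hfS
      obtain ⟨m, r, E, c, h4, h5⟩ := h3 κ₁ le_rfl
      exact h5 (h _ _ _ _ (h4 0).1 (h4 0).2.1 ((h4 0).2.2.2 hb))
        (h _ _ _ _ (h4 1).1 (h4 1).2.1 ((h4 1).2.2.2 hb))
    · intro b hb0 hb'
      exact absurd ⟨b, hb0, hb'⟩ hb

end Pool.Agent.Results.MP_432c1b_ag.TripleSystems
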